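import Pool.Agent.MP_ee8c61_ag.M3H47.Jor

/-! A locally finite vector field of nonzero constant divergence gives a ruling. -/

namespace Pool.Agent.MP_ee8c61_ag.M3H47

open Module

variable {K : Type*} [Field K] [Algebra ℂ K]

/-- two coordinates with dual derivations that span all derivations -/
structure Fr (x : Fin 2 → K) (D : Fin 2 → Der K) : Prop where
  dual : ∀ i j, D i (x j) = if i = j then 1 else 0
  span : ∀ (t : Der K) a, t a = t (x 0) * D 0 a + t (x 1) * D 1 a

/-- the Jacobian determinant -/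
def Jac (D : Fin 2 → Der K) (a b : K) : K := D 0 a * D 1 b - D 1 a * D 0 b

/-- the plain divergence -/
def dv0 (x : Fin 2 → K) (D : Fin 2 → Der K) (t : Der K) : K := D 0 (t (x 0)) + D 1 (t (x 1))

variable {x : Fin 2 → K} {D : Fin 2 → Der K}

theorem Fr.comm (h : Fr x D) (i : Fin 2) (t : Der K) (a : K) :
    D i (t a) = t (D i a) + (D i (t (x 0)) * D 0 a + D i (t (x 1)) * D 1 a) := by
  have h1 := h.span ⁅D i, t⁆ a
  have h2 : ∀ j, t (D i (x j)) = 0 := fun j => by
    rw [h.dual]; split_ifs <;> simp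
  simp only [Derivation.commutator_apply, h2, sub_zero] at h1
  linear_combination h1

theorem Fr.jac_der (h : Fr x D) (t : Der K) (a b : K) :
    t (Jac D a b) + dv0 x D t * Jac D a b = Jac D (t a) b + Jac D a (t b) := by
  simp only [Jac, dv0, map_sub, Derivation.leibniz, smul_eq_mul]
  rw [h.comm 0 t a, h.comm 1 t a, h.comm 0 t b, h.comm 1 t b]
  ring

/-- the Jacobian against a fixed element, as a derivation -/
def jacL (D : Fin 2 → Der K) (b : K) : Der K := D 1 b • D 0 - D 0 b • D 1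

theorem jacL_apply (a b : K) : jacL D b a = Jac D a b := by
  simp [jacL, Jac, mul_comm]

theorem jac_swap (a b : K) : Jac D a b = -Jac D b a := by
  simp only [Jac]; ring

theorem Fr.jac_one (h : Fr x D) : Jac D (x 0) (x 1) = 1 := by
  simp [Jac, h.dual]

/-- the Jacobian as a bilinear map -/
def jacB (D : Fin 2 → Der K) : K →ₗ[ℂ] K →ₗ[ℂ] K :=
  LinearMap.mk₂ ℂ (Jac D) (fun a b c => by simp only [Jac, map_add]; ring)
    (fun c a b => by simp [Jac, smul_sub])
    (fun a b c => by simp only [Jac, map_add]; ring)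
    (fun c a b => by simp [Jac, smul_sub])

/-- the Lie derivative on `k`-fold volume forms -/
def Lie (x : Fin 2 → K) (D : Fin 2 → Der K) (k : ℕ) (t : Der K) : End ℂ K :=
  (t : End ℂ K) + LinearMap.mulLeft ℂ ((k : K) * dv0 x D t)

theorem Lie_apply (k : ℕ) (t : Der K) (a : K) :
    Lie x D k t a = t a + k * dv0 x D t * a := by
  simp [Lie, mul_assoc]

theorem Lie_mul (k l : ℕ) (t : Der K) (a b : K) :
    Lie x D (k + l) t (a * b) = Lie x D k t a * b + a * Lie x D l t b := by
  simp only [Lie_apply, Derivation.leibniz, smul_eq_mul]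
  push_cast
  ring

theorem Lie_mul' (l : ℕ) (t : Der K) (a b : K) :
    Lie x D l t (a * b) = t a * b + a * Lie x D l t b := by
  simp only [Lie_apply, Derivation.leibniz, smul_eq_mul]
  ring

theorem Lie_pow (k : ℕ) (t : Der K) (a : K) (c : ℂ) (h : Lie x D 1 t a = c • a) :
    Lie x D k t (a ^ k) = (k * c) • a ^ k := by
  induction k with
  | zero => simp [Lie_apply]
  | succ k ih =>
    rw [pow_succ, Lie_mul, ih, h, smul_mul_assoc, mul_smul_comm, ← add_smul]
    push_cast
    ring_nf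

theorem Lie_gen_pow (k : ℕ) (t : Der K) (a : K) (c : ℂ)
    (h : a ∈ (Lie x D 1 t).maxGenEigenspace c) :
    a ^ k ∈ (Lie x D k t).maxGenEigenspace (k * c) := by
  induction k with
  | zero => exact (End.mem_maxGenEigenspace _ _ _).2 ⟨1, by simp [Lie_apply]⟩
  | succ k ih =>
    have := gen_bil (LinearMap.mul ℂ K) _ _ (Lie x D (k + 1) t)
      (fun a b => by simpa using Lie_mul k 1 t a b) ih h
    rw [pow_succ]
    push_cast
    rw [add_mul, one_mul]
    exact this

/-- functoriality of the semisimple part on pluri-volume forms -/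
theorem Fr.func (h : Fr x D) {v v' : Der K} (hv : LocFin v) (p : ℂ →+ ℂ)
    (hp : ∀ l, ∀ a ∈ Gn v l, v' a = p l • a) (k : ℕ) (m : K) (c : ℂ)
    (hm : m ∈ (Lie x D k v).maxGenEigenspace c) : Lie x D k v' m = p c • m := by
  obtain ⟨l0, g0, h0, l1, g1, h1, hJ⟩ :
      ∃ l0, ∃ g0 ∈ Gn v l0, ∃ l1, ∃ g1 ∈ Gn v l1, Jac D g0 g1 ≠ 0 := by
    by_contra! hc
    have e1 : ∀ l, ∀ b ∈ Gn v l, ∀ a, Jac D a b = 0 := fun l b hb a => by
      rw [← jacL_apply]
      exact hv.zero _ (fun l' a ha => (jacL_apply a b).trans (hc l' a ha l b hb)) a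
    have e2 := hv.zero (jacL D (x 0)) (fun l b hb => by
      rw [jacL_apply, jac_swap, e1 l b hb, neg_zero]) (x 1)
    rw [jacL_apply, jac_swap, h.jac_one] at e2
    simp at e2
  have j1 : Jac D g0 g1 ∈ (Lie x D 1 v).maxGenEigenspace (l0 + l1) :=
    gen_bil (jacB D) _ _ (Lie x D 1 v) (fun a b => by
      simpa [jacB, Lie_apply] using h.jac_der v a b) h0 h1
  have j2 : Lie x D 1 v' (Jac D g0 g1) = p (l0 + l1) • Jac D g0 g1 := by
    have := h.jac_der v' g0 g1
    rw [hp _ _ h0, hp _ _ h1] at this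
    rw [Lie_apply, Nat.cast_one, one_mul, this, map_add, add_smul]
    congr 1
    · exact DFunLike.congr_fun (map_smul (jacB D) _ g0) g1
    · exact map_smul (jacB D g0) _ g1
  have j3 := Lie_gen_pow k v _ _ j1
  have j4 := Lie_pow k v' _ _ j2
  obtain ⟨L, hL⟩ := exists_semi (Lie x D k v) p
  have key : ∀ n d, n ∈ (Lie x D k v).maxGenEigenspace d → ∀ a ∈ Fin' v,
      L (a * n) = v' a * n + a * (p d • n) := fun n d hn a ha => by
    rw [mem_Fin'] at ha
    induction ha using Submodule.iSup_induction' with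
    | mem l a ha =>
      have := gen_bil (LinearMap.mul ℂ K) _ _ (Lie x D k v)
        (fun a b => by simpa using Lie_mul' k v a b) ha hn
      rw [LinearMap.mul_apply'] at this
      rw [hL _ _ this, hp _ _ ha, map_add, add_smul, smul_mul_assoc, mul_smul_comm]
    | zero => simp
    | add a c _ _ h1 h2 => rw [add_mul, map_add, h1, h2, map_add]; ring
  obtain ⟨r, hr, s, hs, e⟩ := hv (m / Jac D g0 g1 ^ k)
  by_cases hm0 : m = 0
  · simp [hm0]
  have hΩ : Jac D g0 g1 ^ k ≠ 0 := pow_ne_zero _ hJ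
  have hs0 : s ≠ 0 := by
    rintro rfl
    rw [div_zero] at e
    exact div_ne_zero hm0 hΩ e
  have e' : s * m = r * Jac D g0 g1 ^ k := by
    rw [div_eq_div_iff hΩ hs0] at e
    rw [mul_comm, e]
  have k1 := key _ _ hm s hs
  have k2 := key _ _ j3 r hr
  have k3 : p (k * (l0 + l1)) = k * p (l0 + l1) := by
    rw [← nsmul_eq_mul, map_nsmul, nsmul_eq_mul]
  rw [k3, ← j4, ← Lie_mul', ← e', k1, Lie_mul'] at k2
  exact (mul_left_cancel₀ hs0 (add_left_cancel k2)).symm

/-- the constants of a derivation -/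
def cst (t : Der K) : IntermediateField ℂ K where
  carrier := {a | t a = 0}
  mul_mem' {a b} ha hb := by
    simp only [Set.mem_ofPred_eq] at *
    simp [ha, hb]
  add_mem' {a b} ha hb := by
    simp only [Set.mem_ofPred_eq] at *
    simp [ha, hb]
  algebraMap_mem' c := by simp
  inv_mem' a ha := by
    simp only [Set.mem_ofPred_eq] at *
    simp [Derivation.leibniz_inv, ha]

theorem mem_cst {t : Der K} {a : K} : a ∈ cst t ↔ t a = 0 := Iff.rfl

theorem eig_zpow (t : Der K) {y : K} (hy : y ≠ 0) {c : ℂ} (h : t y = c • y) (n : ℤ) :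
    t (y ^ n) = (n * c) • y ^ n := by
  rw [Derivation.leibniz_zpow, h, zpow_sub_one₀ hy]
  rw [zsmul_eq_mul, smul_eq_mul, Algebra.smul_def, Algebra.smul_def, map_mul, map_intCast]
  field_simp

theorem eig_mul (t : Der K) {y z : K} {c d : ℂ} (h : t y = c • y) (h' : t z = d • z) :
    t (y * z) = (c + d) • (y * z) := by
  rw [Derivation.leibniz, h, h', add_smul, smul_eq_mul, smul_eq_mul, mul_smul_comm, mul_smul_comm,
    mul_comm z y, add_comm]

/-- an additive projection of the complex numbers onto the rational multiples of `b` -/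
theorem exists_proj {b : ℂ} (hb : b ≠ 0) :
    ∃ p : ℂ →+ ℚ, p b = 1 := by
  obtain ⟨f, hf⟩ := Module.Projective.exists_dual_eq_one ℚ hb
  exact ⟨f.toAddMonoidHom, hf⟩

/-- an element not killed by a derivation is transcendental over its constants -/
theorem transc (t : Der K) {y : K} (hy : t y ≠ 0) : Transcendental (cst t) y := by
  intro ha
  have : CharZero K := charZero_of_injective_algebraMap (algebraMap ℂ K).injective
  let t' : Derivation (cst t) K K := Derivation.mk'
    { toFun := t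
      map_add' := map_add t
      map_smul' c a := by
        have : t c = 0 := c.2
        change t (c * a) = c * t a
        simp [this] } (fun a b => t.leibniz a b)
  have h1 := t'.map_aeval (minpoly (cst t) y) y
  rw [minpoly.aeval, map_zero, smul_eq_mul] at h1
  have h2 := (minpoly.irreducible ha.isIntegral).separable.aeval_derivative_ne_zero
    (minpoly.aeval (cst t) y)
  exact mul_ne_zero h2 hy h1.symm

theorem Fr.lie_eq (h : Fr x D) (dv : Der K →+ K) (hdv : ∀ (g : K) t, dv (g • t) = g * dv t + t g)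
    {ψ : K} {q : ℕ} (hr : ∀ i, q * ψ * dv (D i) = D i ψ) (t : Der K) :
    Lie x D q t ψ = q * ψ * dv t := by
  have e : t = t (x 0) • D 0 + t (x 1) • D 1 := by
    ext a
    simpa using h.span t a
  have e2 : dv t = t (x 0) * dv (D 0) + D 0 (t (x 0)) + (t (x 1) * dv (D 1) + D 1 (t (x 1))) := by
    conv_lhs => rw [e, map_add, hdv, hdv]
  rw [e2, Lie_apply, h.span t ψ, ← hr, ← hr, dv0]
  ring

/-- JORDAN: a locally finite vector field whose divergence for a pluri-volume form is a nonzero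
constant is, modulo an exact field, the Euler field of a ruling -/
theorem Fr.frame (h : Fr x D) (dv : Der K →+ K) (hdv : ∀ (g : K) t, dv (g • t) = g * dv t + t g)
    {ψ : K} (hψ : ψ ≠ 0) {q : ℕ} (hq : 0 < q) (hr : ∀ i, q * ψ * dv (D i) = D i ψ)
    (v : Der K) {b : ℂ} (hb : b ≠ 0) (hv : dv v = algebraMap ℂ K b)
    (V : Submodule ℂ K) [FiniteDimensional ℂ V] (hV : ∀ a ∈ V, v a ∈ V)
    (hg : IntermediateField.adjoin ℂ (V : Set K) = ⊤) :
    ∃ (v' : Der K) (y u γ : K) (r : ℚ) (j : ℤ) (p : ℂ →+ ℚ), dv v' = algebraMap ℂ K b ∧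
      v - v' = ⁅b⁻¹ • v', v - v'⁆ + dv (b⁻¹ • v') • (v - v') - dv (v - v') • (b⁻¹ • v') ∧
      (∀ l, ∀ a ∈ Gn v l, v' a = (p l * b) • a) ∧
      y ≠ 0 ∧ r ≠ 0 ∧ v' y = (r * b) • y ∧
      (∀ F : IntermediateField ℂ K, cst v' ≤ F → y ∈ F → F = ⊤) ∧ Transcendental (cst v') y ∧
      u ∈ cst v' ∧ Jac D u y ≠ 0 ∧ γ ∈ cst v' ∧ γ ≠ 0 ∧ j * r = q ∧
      ψ = γ * y ^ j * (Jac D u y / y) ^ q := by
  classical
  have : CharZero K := charZero_of_injective_algebraMap (algebraMap ℂ K).injective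
  have hf := locFin_of v V hV hg
  obtain ⟨p, hp⟩ := exists_proj hb
  let P : ℂ →+ ℂ := AddMonoidHom.mk' (fun l => (p l : ℂ) * b) fun l m => by
    rw [map_add]; push_cast; ring
  obtain ⟨v', hv'⟩ := hf.exists_semi P
  have hq' : (q : K) * ψ ≠ 0 := mul_ne_zero (Nat.cast_ne_zero.2 hq.ne') hψ
  have l1 : Lie x D q v' ψ = ((q : ℂ) * b) • ψ := by
    have h1 : ψ ∈ (Lie x D q v).maxGenEigenspace (q * b) :=
      (End.mem_maxGenEigenspace _ _ _).2 ⟨1, by
        rw [pow_one, LinearMap.sub_apply, LinearMap.smul_apply, End.one_apply,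
          h.lie_eq dv hdv hr, hv, Algebra.smul_def, map_mul, map_natCast]
        ring⟩
    rw [h.func hf P hv' q ψ _ h1, ← nsmul_eq_mul, map_nsmul]
    simp [P, hp]
  have d1 : dv v' = algebraMap ℂ K b := by
    rw [h.lie_eq dv hdv hr, Algebra.smul_def, map_mul, map_natCast] at l1
    apply mul_left_cancel₀ hq'
    rw [l1]; ring
  have hbK : algebraMap ℂ K b ≠ 0 := (map_ne_zero _).2 hb
  obtain ⟨s, hs⟩ := CompleteLattice.IsCompactElement.exists_finset_of_le_iSup _
    ((Submodule.fg_iff_compact V).1 (Module.Finite.iff_fg.1 inferInstance)) (fun l => Gn v l)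
    ((le_gen (v : End ℂ K) V hV).le.trans (iSup_mono fun l => inf_le_right))
  set d : ℕ := ∏ l ∈ s, (p l).den with hd
  have hd0 : (d : ℂ) ≠ 0 := Nat.cast_ne_zero.2 (Finset.prod_ne_zero_iff.2 fun l _ => (p l).den_nz)
  let Γ : AddSubgroup ℤ :=
    { carrier := {k | ∃ a : K, a ≠ 0 ∧ v' a = ((k : ℂ) / d * b) • a}
      add_mem' := by
        rintro k m ⟨a, ha, e⟩ ⟨c, hc, e'⟩
        refine ⟨a * c, mul_ne_zero ha hc, (eig_mul v' e e').trans ?_⟩
        push_cast
        ring_nf
      zero_mem' := ⟨1, one_ne_zero, by simp⟩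
      neg_mem' := by
        rintro k ⟨a, ha, e⟩
        refine ⟨a ^ (-1 : ℤ), zpow_ne_zero _ ha, (eig_zpow v' ha e _).trans ?_⟩
        push_cast
        ring_nf }
  obtain ⟨k0, hk0⟩ := Int.subgroup_cyclic Γ
  obtain ⟨y, hy, ey⟩ : k0 ∈ Γ := hk0 ▸ AddSubgroup.mem_closure_singleton_self k0
  have red : ∀ (a : K) (k : ℤ), a ≠ 0 → v' a = ((k : ℂ) / d * b) • a →
      ∃ n : ℤ, n * k0 = k ∧ a * y ^ (-n) ∈ cst v' := fun a k ha e => by
    have hk : k ∈ Γ := ⟨a, ha, e⟩
    rw [hk0, AddSubgroup.mem_closure_singleton] at hk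
    obtain ⟨n, rfl⟩ := hk
    refine ⟨n, rfl, ?_⟩
    rw [mem_cst, eig_mul v' e (eig_zpow v' hy ey _)]
    have : ((n • k0 : ℤ) : ℂ) / d * b + ((-n : ℤ) : ℂ) * ((k0 : ℂ) / d * b) = 0 := by
      rw [smul_eq_mul]; push_cast; ring
    rw [this, zero_smul]
  have gen : ∀ F : IntermediateField ℂ K, cst v' ≤ F → y ∈ F → F = ⊤ := fun F h1 h2 => by
    rw [eq_top_iff, ← hg, IntermediateField.adjoin_le_iff]
    have h3 : V ≤ F.toSubalgebra.toSubmodule := hs.trans (iSup₂_le fun l hl a ha => by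
      change a ∈ F
      by_cases ha0 : a = 0
      · rw [ha0]; exact zero_mem _
      obtain ⟨e, he⟩ : (p l).den ∣ d := Finset.dvd_prod_of_mem _ hl
      obtain ⟨n, -, hn⟩ := red a ((p l).num * e) ha0 ((hv' l a ha).trans (by
        congr 1
        change (p l : ℂ) * b = _
        congr 1
        rw [eq_div_iff hd0, he, Rat.cast_def]
        have : ((p l).den : ℂ) ≠ 0 := Nat.cast_ne_zero.2 (p l).den_nz
        push_cast
        field_simp))
      have : a = a * y ^ (-n) * y ^ n := by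
        rw [mul_assoc, ← zpow_add₀ hy, neg_add_cancel, zpow_zero, mul_one]
      rw [this]
      exact mul_mem (h1 hn) (zpow_mem h2 n))
    exact h3
  have hy1 : v' y ≠ 0 := fun e => by
    have h1 := gen (cst v') le_rfl e
    have h2 : v' = 0 := Derivation.ext fun a => mem_cst.1 (h1 ▸ IntermediateField.mem_top)
    rw [h2, map_zero] at d1
    exact hbK d1.symm
  have hk : k0 ≠ 0 := fun e => hy1 (by rw [ey, e]; simp)
  obtain ⟨u, hu, hJ⟩ : ∃ u ∈ cst v', Jac D u y ≠ 0 := by
    by_contra! hc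
    have h1 := gen (cst (jacL D y)) (fun u hu => (jacL_apply u y).trans (hc u hu))
      ((jacL_apply y y).trans (by simp only [Jac]; ring))
    have h2 : ∀ a, Jac D a y = 0 := fun a =>
      (jacL_apply a y).symm.trans (mem_cst.1 (h1 ▸ IntermediateField.mem_top))
    have h3 := h2 (x 0)
    have h4 := h2 (x 1)
    simp [Jac, h.dual] at h3 h4
    exact hy1 (by rw [h.span v' y, h3, h4]; ring)
  have j0 : Lie x D 1 v' (Jac D u y / y) = (0 : ℂ) • (Jac D u y / y) := by
    have h1 := h.jac_der v' u y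
    have h2 : Jac D u (v' y) = ((k0 : ℂ) / d * b) • Jac D u y := by
      rw [ey]; exact map_smul (jacB D u) _ y
    rw [mem_cst.1 hu, h2] at h1
    have h3 := eig_zpow v' hy ey (-1)
    rw [div_eq_mul_inv, mul_comm, Lie_mul', ← zpow_neg_one, h3, Lie_apply, Nat.cast_one, one_mul,
      h1]
    simp [Jac]
  have j1 := Lie_pow q v' _ _ j0
  have hJ' : (Jac D u y / y) ^ q ≠ 0 := pow_ne_zero _ (div_ne_zero hJ hy)
  have j2 : v' (ψ / (Jac D u y / y) ^ q) = (((q * d : ℤ) : ℂ) / d * b) • (ψ / (Jac D u y / y) ^ q) := by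
    have h1 := Lie_mul' (x := x) (D := D) q v' (ψ / (Jac D u y / y) ^ q) ((Jac D u y / y) ^ q)
    rw [div_mul_cancel₀ _ hJ', l1, j1, mul_zero, zero_smul, mul_zero, add_zero] at h1
    apply mul_right_cancel₀ hJ'
    rw [← h1, smul_mul_assoc, div_mul_cancel₀ _ hJ']
    congr 1
    push_cast
    field_simp
  obtain ⟨j, hj, hγ⟩ := red _ _ (div_ne_zero hψ hJ') j2
  have hd1 : (d : ℚ) ≠ 0 := by exact_mod_cast hd0
  refine ⟨v', y, u, _, k0 / d, j, p, d1, ?_, hv', hy, div_ne_zero (Int.cast_ne_zero.2 hk) hd1, ?_, gen,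
    transc v' hy1, hu, hJ, hγ, mul_ne_zero (div_ne_zero hψ hJ') (zpow_ne_zero _ hy), ?_, ?_⟩
  · have h1 : dv (b⁻¹ • v') = 1 := by
      rw [← algebraMap_smul K, hdv, d1, Derivation.map_algebraMap, add_zero, ← map_mul,
        inv_mul_cancel₀ hb, map_one]
    rw [h1, map_sub, hv, d1, sub_self, zero_smul, one_smul, sub_zero]
    ext a
    simp [Derivation.commutator_apply, hf.comm hv']
  · rw [ey]; push_cast; rfl
  · rw [← mul_div_assoc, div_eq_iff hd1]
    exact_mod_cast hj
  · rw [mul_assoc _ (y ^ (-j)), ← zpow_add₀ hy, neg_add_cancel, zpow_zero, mul_one,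
      div_mul_cancel₀ _ hJ']

end Pool.Agent.MP_ee8c61_ag.M3H47
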