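import Pool.Agent.MP_ee8c61_ag.M3H47.Rat
import Pool.Agent.MP_ee8c61_ag.M3RESID.Alg

/-! Partial fractions on a generic fibre: the frame modulo exact fields. -/

namespace Pool.Agent.MP_ee8c61_ag.M3H47

open Polynomial M3RESID

variable {L : Type} [Field L] [Algebra ℂ L] {K0 : IntermediateField ℂ L} {y t : L}

/-- the field keeps the valuation ring -/
def Keep (Z : VF L) (O : ValuationSubring L) : Prop := ∀ g ∈ O, Z g ∈ O

/-- the volume form is regular and nonzero at `O` -/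
def Reg (d : Dv L) (O : ValuationSubring L) : Prop := ∀ Z, Keep Z O → d.δ Z ∈ O

/-- logarithmic fields have regular divergence at `O` -/
def Log (d : Dv L) (O : ValuationSubring L) (π : L) : Prop :=
  ∀ Z, Keep Z O → Z π / π ∈ O → d.δ Z ∈ O

/-- the exponent of the volume form at `O` is `a` -/
def LogE (d : Dv L) (O : ValuationSubring L) (π : L) (a : ℂ) : Prop :=
  ∀ Z : VF L, (∀ g ∈ O, Z g / π ∈ O) → d.δ Z - algebraMap ℂ L a * (Z π / π) ∈ O.nonunits

/-- the place of the prime `P` has exponent one and residue zero -/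
def Good (d : Dv L) (v : VF L) (K0 : IntermediateField ℂ L) (y : L) (P : K0[X]) : Prop :=
  ∃ O : ValuationSubring L, (∀ c ∈ K0, c ∈ O) ∧ y ∈ O ∧ aeval y P ∈ O.nonunits ∧ Reg d O ∧
    ∃ u ∈ d.Ex, Keep (v - u) O

/-- the frame: modulo exact fields `v` is the Euler field of a ruling -/
def Star (d : Dv L) (v : VF L) (b : ℂ) (K0 : IntermediateField ℂ L) : Prop :=
  ∃ (v' : VF L) (y : L) (g : ℚ), g ≠ 0 ∧ y ≠ 0 ∧ v - v' ∈ d.Ex ∧
    (g : L) * v' y = algebraMap ℂ L b * y ∧ (∀ c ∈ K0, v' c = 0) ∧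
    ∀ F : IntermediateField ℂ L, (∀ z, v' z = 0 → z ∈ F) → y ∈ F → F = ⊤

/-- a frame adapted to the ruling -/
structure Ada (K0 : IntermediateField ℂ L) (y t : L) (X0 X1 : VF L) : Prop where
  k0 : ∀ c ∈ K0, X0 c = 0
  y0 : X0 y = y
  y1 : X1 y = 0
  t1 : X1 t = 1
  t0 : t ∈ K0
  span : ∀ w : VF L, w y = 0 → w t = 0 → w = 0

theorem Rl.der_zero (h : Rl K0 y) (Z : VF L) (h0 : ∀ c ∈ K0, Z c = 0) (hy : Z y = 0) (z : L) :
    Z z = 0 := by
  obtain ⟨A, B, -, hB, e⟩ := h.frac z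
  have e1 := congrArg Z e
  rw [Derivation.leibniz, der_ev Z h0, der_ev Z h0, hy, mul_zero, mul_zero, smul_zero, zero_add,
    smul_eq_mul] at e1
  exact (mul_eq_zero.1 e1).resolve_left (h.ne hB)

theorem Rl.top (h : Rl K0 y) (F : IntermediateField ℂ L) (h0 : ∀ c ∈ K0, c ∈ F) (hy : y ∈ F) :
    F = ⊤ := by
  have h1 : ∀ A : K0[X], aeval y A ∈ F := fun A => by
    induction A using Polynomial.induction_on with
    | C c => simpa using h0 c c.2
    | add p q hp hq => rw [map_add]; exact add_mem hp hq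
    | monomial n c hp => rw [pow_succ, ← mul_assoc, map_mul, aeval_X]; exact mul_mem hp hy
  refine eq_top_iff.2 fun z _ => ?_
  obtain ⟨A, B, -, hB, e⟩ := h.frac z
  rw [(eq_div_iff (h.ne hB)).2 e]
  exact div_mem (h1 A) (h1 B)

theorem Rl.exists_der (h : Rl K0 y) : ∃ Z : VF L, (∀ c ∈ K0, Z c = 0) ∧ Z y = 1 := by
  let e : K0[X] →ₗ[ℂ] L := (aeval y : K0[X] →ₐ[K0] L).toLinearMap.restrictScalars ℂ
  obtain ⟨g, hg⟩ := LinearMap.exists_leftInverse_of_injective e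
    (LinearMap.ker_eq_bot.2 fun A B hAB => h.inj A B hAB)
  let T : Module.End ℂ L := e ∘ₗ (derivative (R := K0)).restrictScalars ℂ ∘ₗ g
  have hT : ∀ A : K0[X], T (aeval y A) = aeval y (derivative A) := fun A => by
    have : g (aeval y A) = A := DFunLike.congr_fun hg A
    change aeval y (derivative (g (aeval y A))) = _
    rw [this]
  obtain ⟨Z, hZ⟩ := exists_ext ((aeval y : K0[X] →ₐ[K0] L).range.restrictScalars ℂ)
    (fun z => by
      obtain ⟨A, B, -, hB, e⟩ := h.frac z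
      exact ⟨_, ⟨A, rfl⟩, _, ⟨B, rfl⟩, (eq_div_iff (h.ne hB)).2 e⟩) T (by
      rintro _ ⟨A, rfl⟩ _ ⟨B, rfl⟩
      change T (aeval y A * aeval y B) = aeval y A * T (aeval y B) + aeval y B * T (aeval y A)
      rw [← map_mul, hT, hT, hT, derivative_mul, map_add, map_mul, map_mul]
      ring)
  have h1 : ∀ A : K0[X], Z (aeval y A) = aeval y (derivative A) := fun A =>
    (hZ _ ⟨A, rfl⟩).trans (hT A)
  exact ⟨Z, fun c hc => by simpa using h1 (C ⟨c, hc⟩), by simpa using h1 X⟩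

theorem fr_of (C : Co L 2) : Fr C.z C.D :=
  ⟨C.dual, fun v a => by rw [C.exp_apply v a, Fin.sum_univ_two]⟩

theorem Rl.exists_ada (h : Rl K0 y) (C : Co L 2) : ∃ t X0 X1, Ada K0 y t X0 X1 := by
  obtain ⟨Z, h0, h1⟩ := h.exists_der
  have hf := fr_of C
  obtain ⟨t, ht, hJ⟩ : ∃ t ∈ K0, Jac C.D t y ≠ 0 := by
    by_contra! hc
    have h2 : ∀ a, Jac C.D a y = 0 := fun a => (jacL_apply a y).symm.trans
      (h.der_zero _ (fun u hu => (jacL_apply u y).trans (hc u hu))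
        ((jacL_apply y y).trans (by simp only [Jac]; ring)) a)
    have h3 := h2 (C.z 0)
    have h4 := h2 (C.z 1)
    simp [Jac, C.dual] at h3 h4
    rw [hf.span Z y, h3, h4] at h1
    simp at h1
  refine ⟨t, y • Z, (Jac C.D t y)⁻¹ • jacL C.D y, fun c hc => by simp [h0 c hc], by simp [h1], ?_, ?_,
    ht, fun w e1 e2 => ?_⟩
  · rw [Derivation.smul_apply, jacL_apply]
    simp [Jac, mul_comm]
  · rw [Derivation.smul_apply, jacL_apply, smul_eq_mul, inv_mul_cancel₀ hJ]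
  · rw [hf.span w] at e1 e2
    have a0 : w (C.z 0) = 0 := mul_right_cancel₀ hJ (by
      rw [Jac]; linear_combination C.D 1 y * e2 - C.D 1 t * e1)
    have a1 : w (C.z 1) = 0 := mul_right_cancel₀ hJ (by
      rw [Jac]; linear_combination C.D 0 t * e1 - C.D 0 y * e2)
    ext a
    rw [hf.span w a, a0, a1]
    simp

variable {X0 X1 : VF L}

theorem Ada.comm (A : Ada K0 y t X0 X1) (g : L) : X0 (X1 g) = X1 (X0 g) := by
  have := A.span ⁅X0, X1⁆ (by simp [Derivation.commutator_apply, A.y0, A.y1])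
    (by simp [Derivation.commutator_apply, A.t1, A.k0 t A.t0])
  have := congrArg (fun v : VF L => v g) this
  simpa [Derivation.commutator_apply, sub_eq_zero] using this

theorem Ada.exp (A : Ada K0 y t X0 X1) (hy : y ≠ 0) (v : VF L) :
    v = (v y / y) • X0 + v t • X1 :=
  sub_eq_zero.1 (A.span _ (by simp [A.y0, A.y1, hy]) (by simp [A.t1, A.k0 t A.t0]))

theorem Ada.k1 (A : Ada K0 y t X0 X1) (h : Rl K0 y) (c : L) (hc : c ∈ K0) : X1 c ∈ K0 :=
  ker_le h X0 A.k0 (by rw [A.y0]; exact h.y_ne) (by rw [A.comm, A.k0 c hc, map_zero])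

theorem Ada.p0 (A : Ada K0 y t X0 X1) : Pres K0 y X0 :=
  pres_of _ (fun c hc => by rw [A.k0 c hc]; exact zero_mem _) ⟨X, by simp [A.y0]⟩

theorem Ada.p1 (A : Ada K0 y t X0 X1) (h : Rl K0 y) : Pres K0 y X1 :=
  pres_of _ (A.k1 h) ⟨0, by simp [A.y1]⟩

theorem Ada.pz (A : Ada K0 y t X0 X1) (hy : y ≠ 0) : Pres K0 y (y⁻¹ • X0) :=
  pres_of _ (fun c hc => by simp [A.k0 c hc]) ⟨1, by simp [A.y0, hy]⟩

theorem Ada.q0 (A : Ada K0 y t X0 X1) (hy : y ≠ 0) : Pres K0 y⁻¹ X0 :=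
  pres_of _ (fun c hc => by rw [A.k0 c hc]; exact zero_mem _)
    ⟨-X, by rw [Derivation.leibniz_inv, A.y0]; simp; field_simp⟩

theorem Ada.q1 (A : Ada K0 y t X0 X1) (h : Rl K0 y) : Pres K0 y⁻¹ X1 :=
  pres_of _ (A.k1 h) ⟨0, by simp [Derivation.leibniz_inv, A.y1]⟩

theorem Pres.keep (h : Rl K0 y) {Z : VF L} (hZ : Pres K0 y Z) {O : ValuationSubring L}
    (h0 : ∀ c ∈ K0, c ∈ O) (hy : y ∈ O) {P : K0[X]} (hP : Prime P)
    (hO : aeval y P ∈ O.nonunits) : Keep Z O := fun g hg =>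
  (val_iff h h0 hy hP hO _).2 (hZ.lo _ ((val_iff h h0 hy hP hO _).1 hg))

theorem k0_nu {O : ValuationSubring L} (h0 : ∀ c ∈ K0, c ∈ O) {c : L} (hc : c ∈ K0)
    (hn : c ∈ O.nonunits) : c = 0 :=
  ((O.mem_nonunits_iff_or).1 hn).resolve_right (not_not.2 (h0 _ (inv_mem hc)))

/-- the divergences of the frame have no poles -/
theorem Ada.flat (A : Ada K0 y t X0 X1) (h : Rl K0 y) (h' : Rl K0 y⁻¹) {d : Dv L} {v : VF L}
    (good : ∀ P : K0[X], Irreducible P → ¬P ∣ X → Good d v K0 y P)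
    {O0 O1 : ValuationSubring L} (k0 : ∀ c ∈ K0, c ∈ O0) (y0 : y ∈ O0.nonunits) (l0 : Log d O0 y)
    {a : ℂ} (e0 : LogE d O0 y a) (k1 : ∀ c ∈ K0, c ∈ O1) (y1 : y ∉ O1) (l1 : Log d O1 y⁻¹) :
    d.δ X0 = algebraMap ℂ L a ∧ d.δ X1 ∈ K0 := by
  have hy := h.y_ne
  have y0' : y ∈ O0 := ValuationSubring.nonunits_subset y0
  have y0'' : aeval y (X : K0[X]) ∈ O0.nonunits := by simpa using y0
  have y1' : y⁻¹ ∈ O1 := (O1.mem_or_inv_mem y).resolve_left y1
  have y1'' : aeval y⁻¹ (X : K0[X]) ∈ O1.nonunits := by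
    simpa using (O1.inv_mem_nonunits_iff).2 (Or.inr y1)
  have key : ∀ Z : VF L, Pres K0 y Z → Pres K0 y⁻¹ Z → Z y / y ∈ K0 → d.δ Z ∈ K0 := by
    intro Z p q hZ
    obtain ⟨B, hB⟩ := poly_of h (z := d.δ Z) fun P hP => by
      by_cases hX : P ∣ X
      · obtain ⟨B, hB, A', e⟩ := (val_iff h k0 y0' prime_X y0'' _).1
          (l0 Z (p.keep h k0 y0' prime_X y0'') (k0 _ hZ))
        exact ⟨B, fun hd => hB ((hP.irreducible.associated_of_dvd irreducible_X hX).symm.dvd.trans hd),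
          A', e⟩
      · obtain ⟨O, o1, o2, o3, o4, -⟩ := good P hP.irreducible hX
        exact (val_iff h o1 o2 hP o3 _).1 (o4 Z (p.keep h o1 o2 hP o3))
    rw [hB]
    refine poly_inf k1 y1 B (hB ▸ l1 Z (q.keep h' k1 y1' prime_X y1'') ?_)
    have : Z y⁻¹ / y⁻¹ = -(Z y / y) := by
      rw [Derivation.leibniz_inv, smul_eq_mul]; field_simp
    rw [this]
    exact neg_mem (k1 _ hZ)
  have a0 := key X0 A.p0 (A.q0 hy) (by rw [A.y0, div_self hy]; exact one_mem _)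
  refine ⟨sub_eq_zero.1 (k0_nu k0 (sub_mem a0 (K0.algebraMap_mem a)) ?_),
    key X1 (A.p1 h) (A.q1 h) (by rw [A.y1, zero_div]; exact zero_mem _)⟩
  have := e0 X0 fun g hg => by
    have := (A.pz hy).keep h k0 y0' prime_X y0'' g hg
    rwa [Derivation.smul_apply, smul_eq_mul, mul_comm, ← div_eq_mul_inv] at this
  rwa [A.y0, div_self hy, mul_one] at this

/-- the twisted derivative along the fibre -/
noncomputable def nab (X0 : VF L) (a : ℂ) : L →+ L :=
  AddMonoidHom.mk' (fun h => X0 h + algebraMap ℂ L a * h) fun g h => by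
    rw [map_add]; ring

theorem nab_apply (a : ℂ) (h : L) : nab X0 a h = X0 h + algebraMap ℂ L a * h := rfl

theorem δ_nab {d : Dv L} {a : ℂ} (ha : d.δ X0 = algebraMap ℂ L a) (h : L) :
    d.δ (h • X0) = nab X0 a h := by
  rw [d.smul, ha, nab_apply]; ring

theorem Ada.B_t (A : Ada K0 y t X0 X1) {d : Dv L} {a : ℂ} (ha : d.δ X0 = algebraMap ℂ L a)
    (h : L) : d.B (h • X0) X1 t = nab X0 a h := by
  rw [d.B_frame _ _ _ A.comm, δ_nab ha]
  simp [A.t1, A.k0 t A.t0]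

theorem Ada.B_y (A : Ada K0 y t X0 X1) {d : Dv L} (h : L) :
    d.B (h • X0) X1 y = -(h * d.δ X1 + X1 h) * y := by
  rw [d.B_frame _ _ _ A.comm, d.smul h X1, Derivation.sub_apply, Derivation.smul_apply,
    Derivation.smul_apply, A.y0, A.y1, smul_zero, zero_sub, smul_eq_mul, neg_mul]

theorem Ada.ex_t (A : Ada K0 y t X0 X1) (hy : y ≠ 0) {d : Dv L} {a : ℂ}
    (ha : d.δ X0 = algebraMap ℂ L a) {u : VF L} (hu : u ∈ d.Ex) : ∃ h, u t = nab X0 a h := by
  refine d.Ex_ind (p := fun u => ∃ h, u t = nab X0 a h) (fun U W => ?_) ⟨0, by simp⟩ ?_ hu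
  · have s0 : ∀ (Z : VF L) (g g' : L), d.B (g • Z) (g' • Z) = 0 := fun Z g g' => by
      rw [← d.B_smul, smul_smul]
      ext z
      simp only [d.B_apply, d.smul, Derivation.smul_apply, smul_eq_mul, Derivation.leibniz,
        Derivation.zero_apply]
      ring
    refine ⟨U t * 0 + (W t * (U y / y) - W y / y * U t), ?_⟩
    conv_lhs => rw [A.exp hy U, A.exp hy W]
    rw [d.B_add, d.B_add', d.B_add', s0, s0, zero_add, add_zero, d.B_anti (U t • X1),
      ← d.B_smul, ← d.B_smul, smul_smul, smul_smul, Derivation.add_apply, Derivation.neg_apply,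
      A.B_t ha, A.B_t ha, mul_zero, zero_add, map_sub, mul_comm (U t), sub_eq_add_neg]
  · rintro u w ⟨g, hg⟩ ⟨g', hg'⟩
    exact ⟨g + g', by rw [Derivation.add_apply, hg, hg', map_add]⟩

theorem Ada.nab_lo (A : Ada K0 y t X0 X1) (a : ℂ) (S : Submonoid K0[X]) (z : L)
    (hz : z ∈ Lo y S) : nab X0 a z ∈ Lo y S :=
  add_mem (A.p0.lo S hz) (mul_mem (c_mem S (K0.algebraMap_mem a)) hz)

theorem Ada.red (A : Ada K0 y t X0 X1) (h : Rl K0 y) {d : Dv L} {v : VF L} {a : ℂ}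
    (ha : d.δ X0 = algebraMap ℂ L a)
    (good : ∀ P : K0[X], Irreducible P → ¬P ∣ X → Good d v K0 y P) {u : VF L} (hu : u ∈ d.Ex) :
    ∃ g ∈ Lo y (nd (X : K0[X]) prime_X),
      (v - u) t - nab X0 a g ∈ Lo y (Submonoid.powers (X : K0[X])) := by
  refine kill h _ (A.nab_lo a) _ fun P hP hX => ?_
  obtain ⟨O, o1, o2, o3, -, w, hw, o4⟩ := good P hP.irreducible hX
  obtain ⟨g, hg⟩ := A.ex_t h.y_ne ha (sub_mem hw hu)
  refine ⟨g, ?_⟩
  have := (val_iff h o1 o2 hP o3 _).1 (o4 t (o1 t A.t0))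
  rw [← hg]
  simpa using this

theorem Ada.laurent (A : Ada K0 y t X0 X1) (hy : y ≠ 0) {a : ℂ} (m : ℤ)
    (hm : ∀ n : ℕ, ((m + n : ℤ) : ℂ) + a ≠ 0) (B : K0[X]) :
    ∃ B' : K0[X], y ^ m * aeval y B = nab X0 a (y ^ m * aeval y B') := by
  induction B using Polynomial.induction_on' with
  | add p q hp hq =>
    obtain ⟨p', hp⟩ := hp
    obtain ⟨q', hq⟩ := hq
    exact ⟨p' + q', by rw [map_add, map_add, mul_add, mul_add, map_add, hp, hq]⟩
  | monomial n c =>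
    refine ⟨monomial n (c * algebraMap ℂ K0 (((m + n : ℤ) : ℂ) + a)⁻¹), ?_⟩
    have e1 := eig_zpow X0 hy (c := 1) (by simpa using A.y0) (m + n)
    have e2 : algebraMap ℂ L (((m + n : ℤ) : ℂ) + a) ≠ 0 := (_root_.map_ne_zero _).2 (hm n)
    have e3 : ∀ c : L, y ^ m * (c * y ^ n) = c * y ^ (m + n) := fun c => by
      rw [zpow_add₀ hy, zpow_natCast]; ring
    have e4 : ∀ c : K0, X0 (algebraMap K0 L c) = 0 := fun c => A.k0 c c.2
    rw [aeval_monomial, aeval_monomial, e3, e3, nab_apply, Derivation.leibniz, e1,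
      e4, map_mul, ← IsScalarTower.algebraMap_apply, map_inv₀,
      mul_one, Algebra.smul_def ((m + n : ℤ) : ℂ)]
    rw [map_add] at e2 ⊢
    simp only [smul_eq_mul, mul_zero, add_zero]
    field_simp

/-- after the fibre component is removed the field is vertical -/
theorem Ada.vert (A : Ada K0 y t X0 X1) (hy : y ≠ 0) {d : Dv L} {a b : ℂ}
    (ha : d.δ X0 = algebraMap ℂ L a) {v u : VF L} (hv : d.δ v = algebraMap ℂ L b) (hu : u ∈ d.Ex)
    {g : L} (hg : (v - u) t = nab X0 a g) :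
    ∃ α : L, v - α • X0 ∈ d.Ex ∧ nab X0 a α = algebraMap ℂ L b ∧
      α = (v - u) y / y + (g * d.δ X1 + X1 g) := by
  have e1 := A.exp hy (v - u - d.B (g • X0) X1)
  rw [Derivation.sub_apply (D1 := v - u) t, hg, A.B_t ha, sub_self, zero_smul, add_zero] at e1
  refine ⟨(v - u - d.B (g • X0) X1) y / y, ?_, ?_, ?_⟩
  · rw [← e1]
    have := add_mem hu (d.B_mem (g • X0) X1)
    rwa [sub_sub, sub_sub_cancel]
  · rw [← δ_nab ha, ← e1, map_sub, map_sub, d.δ_B, d.δ_Ex hu, hv, sub_zero, sub_zero]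
  · rw [Derivation.sub_apply (D1 := v - u) y, A.B_y]
    field_simp
    ring

theorem Ada.star (A : Ada K0 y t X0 X1) (h : Rl K0 y) {d : Dv L} {v : VF L} {b : ℂ} {a : ℚ}
    (ha : a ≠ 0) {α : L} (h1 : v - α • X0 ∈ d.Ex) (h2 : (a : L) * α = algebraMap ℂ L b) :
    Star d v b K0 :=
  ⟨α • X0, y, a, ha, h.y_ne, h1, by rw [Derivation.smul_apply, A.y0, smul_eq_mul, ← mul_assoc, h2],
    fun c hc => by simp [A.k0 c hc], fun F hF hy => h.top F (fun c hc => hF c (by simp [A.k0 c hc])) hy⟩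

/-- F1: the exponent is not an integer -/
theorem star_F1 (C : Co L 2) (ty : Transcendental K0 y)
    (gen : IntermediateField.adjoin K0 {y} = ⊤) (d : Dv L) (v : VF L) (b : ℂ)
    (hv : d.δ v = algebraMap ℂ L b) (a : ℚ) (ha : ∀ n : ℤ, a ≠ n)
    (good : ∀ P : K0[X], Irreducible P → ¬P ∣ X → Good d v K0 y P)
    {O0 O1 : ValuationSubring L} (k0 : ∀ c ∈ K0, c ∈ O0) (y0 : y ∈ O0.nonunits) (l0 : Log d O0 y)
    (e0 : LogE d O0 y a) (k1 : ∀ c ∈ K0, c ∈ O1) (y1 : y ∉ O1) (l1 : Log d O1 y⁻¹) :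
    Star d v b K0 := by
  have h := rl_of ty gen
  have hy := h.y_ne
  obtain ⟨t, X0, X1, A⟩ := h.exists_ada C
  obtain ⟨a0, -⟩ := A.flat h (rl_inv ty gen) good k0 y0 l0 e0 k1 y1 l1
  have ha' : ∀ n : ℤ, (a : ℂ) ≠ n := fun n e => ha n (by exact_mod_cast e)
  obtain ⟨g, -, _, ⟨k, rfl⟩, B, e⟩ := A.red h a0 good (zero_mem _)
  obtain ⟨B', hB⟩ := A.laurent hy (a := a) (-k)
    (fun n e => ha' (-(-k + n)) (by push_cast at e ⊢; linear_combination e)) B
  obtain ⟨α, h1, h2, -⟩ := A.vert hy a0 hv (zero_mem _) (g := g + y ^ (-k : ℤ) * aeval y B') (by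
    rw [map_add, ← hB, ← e]
    simp only [map_pow, aeval_X, zpow_neg, zpow_natCast]
    field_simp
    ring)
  have a1 : a ≠ 0 := by simpa using ha 0
  refine A.star h a1 h1 ?_
  by_contra hne
  obtain ⟨n, hn⟩ := eig_int h X0 A.k0 A.y0 (sub_ne_zero.2 hne) (a := a) (by
    rw [nab_apply, map_ratCast] at h2
    rw [map_sub, Derivation.map_algebraMap, Derivation.leibniz, A.k0 _ (SubfieldClass.ratCast_mem K0 a),
      map_ratCast]
    simp only [smul_eq_mul]
    linear_combination (a : L) * h2)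
  exact ha' n hn

theorem Ada.cap (A : Ada K0 y t X0 X1) (h : Rl K0 y) {d : Dv L} {v : VF L} {n : ℕ}
    (ha : d.δ X0 = algebraMap ℂ L (n + 1))
    (good : ∀ P : K0[X], Irreducible P → ¬P ∣ X → Good d v K0 y P) {u : VF L} (hu : u ∈ d.Ex)
    (hc : y ^ n * (v - u) t ∈ Lo y (nd (X : K0[X]) prime_X)) :
    ∃ g, y ^ n * g ∈ Lo y (nd (X : K0[X]) prime_X) ∧ (v - u) t = nab X0 (n + 1) g := by
  have hy := h.y_ne
  obtain ⟨g, hg, h1⟩ := A.red h ha good hu
  have h2 : y ^ n * ((v - u) t - nab X0 (n + 1) g) ∈ Lo y (Submonoid.powers (1 : K0[X])) := by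
    refine inter h prime_X ?_ (by
      rw [mul_one]
      exact mul_mem (pow_mem (y_mem _) n) h1)
    rw [mul_sub]
    exact sub_mem hc (mul_mem (pow_mem (y_mem _) n) (A.nab_lo _ _ _ hg))
  obtain ⟨_, ⟨k, rfl⟩, B, e⟩ := h2
  simp only [one_pow, map_one, mul_one] at e
  obtain ⟨B', hB⟩ := A.laurent hy (a := n + 1) (-n) (fun m e => by
    push_cast at e
    have : ((m + 1 : ℕ) : ℂ) = 0 := by push_cast; linear_combination e
    exact Nat.succ_ne_zero m (Nat.cast_eq_zero.1 this)) B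
  refine ⟨g + y ^ (-n : ℤ) * aeval y B', ?_, ?_⟩
  · rw [mul_add, zpow_neg, zpow_natCast, mul_inv_cancel_left₀ (pow_ne_zero n hy)]
    exact add_mem (mul_mem (pow_mem (y_mem _) n) hg) (ev_mem _ _)
  · rw [map_add, ← hB, ← e, zpow_neg, zpow_natCast, inv_mul_cancel_left₀ (pow_ne_zero n hy)]
    ring

/-- F2: the exponent is the positive integer `n + 1` and the class is capped at `y = 0` -/
theorem star_F2 (C : Co L 2) (ty : Transcendental K0 y)
    (gen : IntermediateField.adjoin K0 {y} = ⊤) (d : Dv L) (v : VF L) (b : ℂ)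
    (hv : d.δ v = algebraMap ℂ L b) (n : ℕ)
    (good : ∀ P : K0[X], Irreducible P → ¬P ∣ X → Good d v K0 y P)
    {O0 O1 : ValuationSubring L} (k0 : ∀ c ∈ K0, c ∈ O0) (y0 : y ∈ O0.nonunits) (l0 : Log d O0 y)
    (e0 : LogE d O0 y (n + 1)) (k1 : ∀ c ∈ K0, c ∈ O1) (y1 : y ∉ O1) (l1 : Log d O1 y⁻¹)
    (cap : ∃ u ∈ d.Ex, Keep (y ^ n • (v - u)) O0 ∧ (y ^ n • (v - u)) y / y ∈ O0) :
    Star d v b K0 := by
  have : CharZero L := charZero_of_injective_algebraMap (algebraMap ℂ L).injective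
  have h := rl_of ty gen
  have hy := h.y_ne
  obtain ⟨t, X0, X1, A⟩ := h.exists_ada C
  obtain ⟨a0, a1⟩ := A.flat h (rl_inv ty gen) good k0 y0 l0 e0 k1 y1 l1
  obtain ⟨u, hu, c1, c2⟩ := cap
  have y0' : y ∈ O0 := ValuationSubring.nonunits_subset y0
  have vi := val_iff h k0 y0' prime_X (by simpa using y0)
  obtain ⟨g, hg, e⟩ := A.cap h a0 good hu ((vi _).1 (c1 t (k0 t A.t0)))
  obtain ⟨α, h1, h2, h3⟩ := A.vert hy a0 hv hu e
  refine A.star h (a := n + 1) (by positivity) h1 ?_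
  have m1 : y ^ n * α ∈ O0 := by
    have e1 : X1 (y ^ n * g) = y ^ n * X1 g := by
      simp [Derivation.leibniz_pow, A.y1]
    have e2 : y ^ n * α = (y ^ n • (v - u)) y / y + (y ^ n * g * d.δ X1 + X1 (y ^ n * g)) := by
      rw [h3, e1, Derivation.smul_apply, smul_eq_mul]; ring
    rw [e2]
    exact add_mem c2 (add_mem (mul_mem ((vi _).2 hg) (k0 _ a1)) ((vi _).2 ((A.p1 h).lo _ hg)))
  rw [nab_apply, map_add, map_natCast, map_one] at h2
  have m2 : y ^ (n + 1) * ((n + 1) * α - algebraMap ℂ L b) ∈ K0 := by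
    refine ker_le h X0 A.k0 (by rw [A.y0]; exact hy) ?_
    have p1 := eig_zpow X0 hy (c := 1) (by simpa using A.y0) (n + 1 : ℕ)
    rw [zpow_natCast] at p1
    rw [Derivation.leibniz, p1, map_sub, Derivation.map_algebraMap, Derivation.leibniz,
      A.k0 _ (add_mem (natCast_mem K0 n) (one_mem _)), Algebra.smul_def (_ * _)]
    simp only [smul_eq_mul, mul_one, Int.cast_natCast, map_natCast]
    push_cast
    linear_combination y ^ (n + 1) * ((n : L) + 1) * h2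
  have m3 := k0_nu k0 m2 (by
    have : y ^ (n + 1) * ((n + 1) * α - algebraMap ℂ L b) =
        ((n + 1) * (y ^ n * α) - y ^ n * algebraMap ℂ L b) * y := by ring
    rw [this]
    exact nu_mul (sub_mem (mul_mem (k0 _ (add_mem (natCast_mem K0 n) (one_mem _))) m1)
      (mul_mem (pow_mem y0' n) (k0 _ (K0.algebraMap_mem b)))) y0)
  push_cast
  exact sub_eq_zero.1 ((mul_eq_zero.1 m3).resolve_left (pow_ne_zero _ hy))

/-- F3: only the place at infinity is special -/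
theorem star_F3 (C : Co L 2) (ty : Transcendental K0 y)
    (gen : IntermediateField.adjoin K0 {y} = ⊤) (d : Dv L) (v : VF L) (b : ℂ) (hb : b ≠ 0)
    (hv : d.δ v = algebraMap ℂ L b) (good : ∀ P : K0[X], Irreducible P → Good d v K0 y P)
    {O1 : ValuationSubring L} (k1 : ∀ c ∈ K0, c ∈ O1) (y1 : y ∉ O1) (l1 : Log d O1 y⁻¹) :
    Star d v b K0 := by
  have h := rl_of ty gen
  have hy := h.y_ne
  obtain ⟨t, X0, X1, A⟩ := h.exists_ada C
  obtain ⟨O0, k0, y0', y0, r0, u, hu, c1⟩ := good X irreducible_X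
  rw [aeval_X] at y0
  obtain ⟨a0, -⟩ := A.flat h (rl_inv ty gen) (fun P hP _ => good P hP) k0 y0
    (fun Z hZ _ => r0 Z hZ) (a := ((0 : ℕ) : ℂ) + 1) (fun Z hZ => by
      have h1 := r0 (y⁻¹ • Z) fun g hg => by
        rw [Derivation.smul_apply, smul_eq_mul, mul_comm, ← div_eq_mul_inv]
        exact hZ g hg
      have h2 : d.δ Z - algebraMap ℂ L (((0 : ℕ) : ℂ) + 1) * (Z y / y) = d.δ (y⁻¹ • Z) * y := by
        rw [d.smul, Derivation.leibniz_inv]
        simp only [Nat.cast_zero, zero_add, map_one, smul_eq_mul]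
        field_simp
        ring
      rw [h2]
      exact nu_mul h1 y0) k1 y1 l1
  have vi := val_iff h k0 y0' prime_X (by simpa using y0)
  obtain ⟨g, -, e⟩ := A.cap h a0 (fun P hP _ => good P hP) hu
    (by simpa using (vi _).1 (c1 t (k0 t A.t0)))
  obtain ⟨α, h1, h2, -⟩ := A.vert hy a0 hv hu e
  rw [nab_apply, Nat.cast_zero, zero_add, map_one, one_mul] at h2
  have hb' : algebraMap ℂ L b ≠ 0 := (_root_.map_ne_zero _).2 hb
  have m1 : X0 (y * α) = algebraMap ℂ L b * y := by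
    rw [Derivation.leibniz, A.y0, smul_eq_mul, smul_eq_mul, ← h2]; ring
  have m2 : α ≠ 0 := by
    rintro rfl
    exact hb' (by simpa using h2.symm)
  refine ⟨α • X0, y * α, 1, one_ne_zero, mul_ne_zero hy m2, h1, ?_,
    fun c hc => by simp [A.k0 c hc], fun F hF hF' => ?_⟩
  · rw [Derivation.smul_apply, m1, smul_eq_mul]
    push_cast
    ring
  · refine h.top F (fun c hc => hF c (by simp [A.k0 c hc])) ?_
    have m3 := hF (y * α - algebraMap ℂ L b * y) (by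
      rw [Derivation.smul_apply, map_sub, m1, Derivation.leibniz, A.y0, Derivation.map_algebraMap]
      simp)
    have := div_mem (sub_mem hF' m3) (F.algebraMap_mem b)
    rwa [sub_sub_cancel, mul_div_cancel_left₀ _ hb'] at this

/-! ### The hypotheses from the intrinsic exponent at a discrete valuation -/

section Exp

open M3

variable {d : Dv L} {o : DV L} {π : L} {a : ℂ}

theorem F_div (hπ : o.v π = 1) {m : ℤ} {g : L} (hg : g ∈ o.F m) : g / π ∈ o.F (m - 1) := by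
  have := o.F_mul hg (o.mem_F_self π⁻¹)
  rwa [o.inv, hπ, ← div_eq_mul_inv, ← sub_eq_add_neg] at this

theorem ne_of_v (hπ : o.v π = 1) : π ≠ 0 := fun e => by
  rw [e, o.zero] at hπ
  exact zero_ne_one hπ

theorem F_zpow (hπ : o.v π = 1) (m : ℤ) : π ^ m ∈ o.F m := by
  have h0 := ne_of_v hπ
  induction m using Int.induction_on with
  | zero => exact Or.inr (by simp [o.one])
  | succ n ih =>
    rw [zpow_add_one₀ h0]
    exact o.F_mul ih (Or.inr hπ.ge)
  | pred n ih =>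
    rw [zpow_sub_one₀ h0, ← div_eq_mul_inv]
    exact F_div hπ ih

theorem F_nu {g : L} (hg : g ∈ o.F 1) : g ∈ o.O.nonunits := by
  rw [ValuationSubring.mem_nonunits_iff_or]
  by_cases h0 : g = 0
  · exact Or.inl h0
  refine Or.inr fun h => ?_
  have h1 := hg.resolve_left h0
  have h2 := (o.mem_O.1 h).resolve_left (inv_ne_zero h0)
  rw [o.inv] at h2
  omega

theorem split (hπ : o.v π = 1) (Z : VF L) {m : ℤ} {g : L} (hg : g ∈ o.F m) :
    ∃ e ∈ o.F 0, Z g = m * (Z π / π) * g + π ^ m * Z e := by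
  have h0 := ne_of_v hπ
  refine ⟨g * π ^ (-m), by simpa using o.F_mul hg (F_zpow hπ (-m)), ?_⟩
  rw [Derivation.leibniz, Dv.zpow_der Z π h0, smul_eq_mul, smul_eq_mul, zpow_neg]
  have := zpow_ne_zero m h0
  push_cast
  field_simp
  ring

theorem int_F (o : DV L) (hc : ∀ c : ℂ, algebraMap ℂ L c ∈ o.F 0) (m : ℤ) : (m : L) ∈ o.F 0 := by
  simpa using hc m

theorem lv_of (hc : ∀ c : ℂ, algebraMap ℂ L c ∈ o.F 0) (hπ : o.v π = 1) {Z : VF L}
    (hZ : Keep Z o.O) (h1 : Z π / π ∈ o.O) : Z ∈ LV o 0 := fun m g hg => by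
  obtain ⟨e, he, h⟩ := split hπ Z hg
  rw [h, add_zero]
  exact add_mem (by simpa using o.F_mul (o.F_mul (int_F o hc m) (o.mem_O.1 h1)) hg)
    (by simpa using o.F_mul (F_zpow hπ m) (o.mem_O.1 (hZ e he)))

theorem log_of_exp (hc : ∀ c : ℂ, algebraMap ℂ L c ∈ o.F 0) (hπ : o.v π = 1) (h : Exp d o a) :
    Log d o.O π := fun _ hZ h1 => h.reg _ (lv_of hc hπ hZ h1)

theorem exp_F (hc : ∀ c : ℂ, algebraMap ℂ L c ∈ o.F 0) (hπ : o.v π = 1) (h : Exp d o a)
    (Z : VF L) (hZ : ∀ g ∈ o.O, Z g / π ∈ o.O) :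
    d.δ Z - algebraMap ℂ L a * (Z π / π) ∈ o.F 1 := by
  have h0 := ne_of_v hπ
  have hp : π ∈ o.F 1 := Or.inr hπ.ge
  obtain ⟨θ, t1, t2⟩ := h.eul
  have k0 : Z π / π ∈ o.F 0 := hZ π (o.F_anti zero_le_one hp)
  set κ := Z π / π with hκ
  have h1 : π⁻¹ • (Z - κ • θ) ∈ LV o 0 := fun m g hg => by
    obtain ⟨e, he, h⟩ := split hπ Z hg
    have e1 : (π⁻¹ • (Z - κ • θ)) g = π ^ m * (Z e / π) - κ * (θ g - m * g) / π := by
      rw [Derivation.smul_apply, Derivation.sub_apply, Derivation.smul_apply, h, ← hκ, smul_eq_mul,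
        smul_eq_mul]
      field_simp
      ring
    rw [e1, add_zero]
    exact sub_mem (by simpa using o.F_mul (F_zpow hπ m) (o.mem_O.1 (hZ e he)))
      (by simpa using F_div hπ (o.F_mul k0 (t1 m g hg)))
  have h2 := o.F_mul hp (h.reg _ h1)
  have h3 := h1 1 π hp
  have h4 := t1 0 κ k0
  have h5 := o.F_mul k0 t2
  have e2 : d.δ (Z - κ • θ) = π * d.δ (π⁻¹ • (Z - κ • θ)) + (π⁻¹ • (Z - κ • θ)) π := by
    rw [← d.smul, smul_smul, mul_inv_cancel₀ h0, one_smul]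
  rw [map_sub, d.smul] at e2
  have e3 : d.δ Z - algebraMap ℂ L a * κ = π * d.δ (π⁻¹ • (Z - κ • θ)) + (π⁻¹ • (Z - κ • θ)) π +
      (θ κ - ((0 : ℤ) : L) * κ) + κ * (d.δ θ - algebraMap ℂ L a) := by
    rw [← e2]
    push_cast
    ring
  rw [e3]
  simp only [add_zero, zero_add] at h2 h3 h4 h5
  exact add_mem (add_mem (add_mem h2 h3) h4) h5

theorem logE_of_exp (hc : ∀ c : ℂ, algebraMap ℂ L c ∈ o.F 0) (hπ : o.v π = 1) (h : Exp d o a) :
    LogE d o.O π a := fun Z hZ => F_nu (exp_F hc hπ h Z hZ)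

theorem reg_of_exp (hc : ∀ c : ℂ, algebraMap ℂ L c ∈ o.F 0) (hπ : o.v π = 1) (h : Exp d o 1) :
    Reg d o.O := fun Z hZ => by
  have h0 := ne_of_v hπ
  have h1 := exp_F hc hπ h (π • Z) fun g hg => by
    rw [Derivation.smul_apply, smul_eq_mul, mul_div_cancel_left₀ _ h0]
    exact hZ g hg
  rw [d.smul, map_one, one_mul, Derivation.smul_apply, smul_eq_mul, mul_div_cancel_left₀ _ h0,
    add_sub_cancel_right] at h1
  have := F_div hπ h1
  rwa [mul_div_cancel_left₀ _ h0, sub_self] at this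

/-- the cap hypothesis of F2 from the filtration -/
theorem cap_of_lv (hπ : o.v π = 1) {w : VF L} {n : ℕ} (hw : w ∈ LV o (-n)) :
    Keep (π ^ n • w) o.O ∧ (π ^ n • w) π / π ∈ o.O := by
  have hp := F_zpow hπ n
  rw [zpow_natCast] at hp
  refine ⟨fun g hg => ?_, ?_⟩
  · have := o.F_mul hp (hw 0 g hg)
    rw [zero_add, add_neg_cancel] at this
    exact this
  · have := F_div hπ (o.F_mul hp (hw 1 π (Or.inr hπ.ge)))
    rw [show (n : ℤ) + (1 + -n) - 1 = 0 by ring] at this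
    exact this

end Exp

end Pool.Agent.MP_ee8c61_ag.M3H47
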