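import Pool.Agent.MP_ee8c61_ag.M3H47.Frame

/-! Local rings of a rational function field `K0(y)` and polar parts. -/

namespace Pool.Agent.MP_ee8c61_ag.M3H47

open Polynomial

variable {L : Type*} [Field L] [Algebra ℂ L] {K0 : IntermediateField ℂ L} {y : L}

/-- `L` is the field of rational functions in `y` over `K0` -/
structure Rl (K0 : IntermediateField ℂ L) (y : L) : Prop where
  inj : ∀ A B : K0[X], aeval y A = aeval y B → A = B
  frac : ∀ z : L, ∃ A B : K0[X], IsCoprime A B ∧ B ≠ 0 ∧ z * aeval y B = aeval y A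

theorem Rl.ne (h : Rl K0 y) {B : K0[X]} (hB : B ≠ 0) : aeval y B ≠ 0 :=
  fun e => hB (h.inj _ _ (by rw [e, map_zero]))

theorem Rl.y_ne (h : Rl K0 y) : y ≠ 0 := by
  simpa using h.ne (B := X) X_ne_zero

theorem rl_of (ty : Transcendental K0 y) (gen : IntermediateField.adjoin K0 {y} = ⊤) :
    Rl K0 y := by
  have inj := transcendental_iff_injective.1 ty
  refine ⟨fun A B e => inj e, fun z => ?_⟩
  have hz : z ∈ IntermediateField.adjoin K0 {y} := gen ▸ IntermediateField.mem_top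
  obtain ⟨r, s, e⟩ := (IntermediateField.mem_adjoin_simple_iff K0 z).1 hz
  by_cases hs : s = 0
  · exact ⟨0, 1, isCoprime_one_right, one_ne_zero, by simp [e, hs]⟩
  obtain ⟨A, B, c, h1, rfl, rfl⟩ := UniqueFactorizationMonoid.exists_reduced_factors' r s hs
  have hc : aeval y c ≠ 0 := fun e => left_ne_zero_of_mul hs (inj (by rw [e, map_zero]))
  have hB : aeval y B ≠ 0 := fun e => right_ne_zero_of_mul hs (inj (by rw [e, map_zero]))
  refine ⟨A, B, h1.isCoprime, right_ne_zero_of_mul hs, ?_⟩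
  rw [e, map_mul, map_mul]
  field_simp

theorem rl_inv (ty : Transcendental K0 y) (gen : IntermediateField.adjoin K0 {y} = ⊤) :
    Rl K0 y⁻¹ := by
  refine rl_of (fun h => ty (IsAlgebraic.inv_iff.1 h)) ?_
  rw [eq_top_iff, ← gen, IntermediateField.adjoin_simple_le_iff]
  simpa using inv_mem (IntermediateField.mem_adjoin_simple_self K0 y⁻¹)

/-- fractions with denominators in `S` -/
def Lo (y : L) (S : Submonoid K0[X]) : Subring L where
  carrier := {z | ∃ B ∈ S, ∃ A : K0[X], z * aeval y B = aeval y A}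
  mul_mem' := by
    rintro z w ⟨B, hB, A, e⟩ ⟨B', hB', A', e'⟩
    refine ⟨B * B', mul_mem hB hB', A * A', ?_⟩
    rw [map_mul, map_mul, ← e, ← e']; ring
  one_mem' := ⟨1, one_mem _, 1, by simp⟩
  add_mem' := by
    rintro z w ⟨B, hB, A, e⟩ ⟨B', hB', A', e'⟩
    refine ⟨B * B', mul_mem hB hB', A * B' + A' * B, ?_⟩
    rw [map_add, map_mul, map_mul, map_mul, ← e, ← e']; ring
  zero_mem' := ⟨1, one_mem _, 0, by simp⟩
  neg_mem' := by
    rintro z ⟨B, hB, A, e⟩
    exact ⟨B, hB, -A, by rw [map_neg, ← e]; ring⟩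

theorem mem_Lo {S : Submonoid K0[X]} {z : L} :
    z ∈ Lo y S ↔ ∃ B ∈ S, ∃ A : K0[X], z * aeval y B = aeval y A := Iff.rfl

theorem ev_mem (S : Submonoid K0[X]) (A : K0[X]) : aeval y A ∈ Lo y S :=
  ⟨1, one_mem _, A, by simp⟩

theorem y_mem (S : Submonoid K0[X]) : y ∈ Lo y S := by
  simpa using ev_mem (y := y) S X

theorem c_mem (S : Submonoid K0[X]) {c : L} (hc : c ∈ K0) : c ∈ Lo y S := by
  simpa using ev_mem (y := y) S (C ⟨c, hc⟩)

/-- the polynomials not divisible by the prime `P` -/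
def nd (P : K0[X]) (hP : Prime P) : Submonoid K0[X] where
  carrier := {B | ¬P ∣ B}
  mul_mem' h h' e := (hP.dvd_or_dvd e).elim h h'
  one_mem' := hP.not_dvd_one

/-- the derivation keeps the polynomials in `y` -/
def Pres (K0 : IntermediateField ℂ L) (y : L) (Z : Der L) : Prop :=
  ∀ A : K0[X], ∃ A' : K0[X], Z (aeval y A) = aeval y A'

theorem pres_of (Z : Der L) (h1 : ∀ c ∈ K0, Z c ∈ K0) (h2 : ∃ A' : K0[X], Z y = aeval y A') :
    Pres K0 y Z := by
  obtain ⟨Y, h2⟩ := h2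
  intro A
  induction A using Polynomial.induction_on with
  | C c => exact ⟨C ⟨Z c, h1 c c.2⟩, by simp⟩
  | add p q hp hq =>
    obtain ⟨p', hp⟩ := hp
    obtain ⟨q', hq⟩ := hq
    exact ⟨p' + q', by rw [map_add, map_add, hp, hq, map_add]⟩
  | monomial n c hp =>
    obtain ⟨p', hp⟩ := hp
    refine ⟨C c * X ^ n * Y + X * p', ?_⟩
    rw [pow_succ, ← mul_assoc, map_mul, Derivation.leibniz, hp, aeval_X, h2]
    simp

theorem Pres.lo {Z : Der L} (h : Pres K0 y Z) (S : Submonoid K0[X]) {z : L} (hz : z ∈ Lo y S) :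
    Z z ∈ Lo y S := by
  obtain ⟨B, hB, A, e⟩ := hz
  obtain ⟨A', hA⟩ := h A
  obtain ⟨B', hB'⟩ := h B
  refine ⟨B * B, mul_mem hB hB, A' * B - A * B', ?_⟩
  have := congrArg Z e
  rw [Derivation.leibniz, hA, hB', smul_eq_mul, smul_eq_mul] at this
  rw [map_sub, map_mul, map_mul, map_mul, ← this, ← e]
  ring

theorem ev_mem_val {O : ValuationSubring L} (h0 : ∀ c ∈ K0, c ∈ O) (hy : y ∈ O) (A : K0[X]) :
    aeval y A ∈ O := by
  induction A using Polynomial.induction_on with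
  | C c => simpa using h0 c c.2
  | add p q hp hq => rw [map_add]; exact add_mem hp hq
  | monomial n c hp => rw [pow_succ, ← mul_assoc, map_mul, aeval_X]; exact mul_mem hp hy

omit [Algebra ℂ L] in
theorem nu_mul {O : ValuationSubring L} {a b : L} (ha : a ∈ O) (hb : b ∈ O.nonunits) :
    a * b ∈ O.nonunits := by
  rw [ValuationSubring.mem_nonunits_iff] at hb ⊢
  rw [map_mul]
  exact mul_lt_one_of_nonneg_of_lt_one_right ((O.valuation_le_one_iff a).2 ha) zero_le hb

omit [Algebra ℂ L] in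
theorem one_nu (O : ValuationSubring L) : (1 : L) ∉ O.nonunits := by
  simp [ValuationSubring.mem_nonunits_iff]

/-- a valuation ring centred at the prime `P` is the local ring at `P` -/
theorem val_iff (h : Rl K0 y) {O : ValuationSubring L} (h0 : ∀ c ∈ K0, c ∈ O) (hy : y ∈ O)
    {P : K0[X]} (hP : Prime P) (hO : aeval y P ∈ O.nonunits) (z : L) :
    z ∈ O ↔ z ∈ Lo y (nd P hP) := by
  have key : ∀ B : K0[X], ¬P ∣ B → aeval y B ∉ O.nonunits := fun B hB hn => by
    obtain ⟨U, W, e⟩ := (hP.irreducible.coprime_iff_not_dvd).2 hB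
    have := congrArg (aeval y) e
    rw [map_add, map_mul, map_mul, map_one] at this
    exact one_nu O (this ▸ add_mem (nu_mul (ev_mem_val h0 hy U) hO) (nu_mul (ev_mem_val h0 hy W) hn))
  constructor
  · intro hz
    obtain ⟨A, B, hc, -, e⟩ := h.frac z
    refine ⟨B, fun hd => ?_, A, e⟩
    obtain ⟨Q, rfl⟩ := hd
    refine key A (fun hA => hP.not_isUnit (hc.isUnit_of_dvd' hA (dvd_mul_right _ _))) ?_
    rw [← e, map_mul, mul_comm (aeval y P), ← mul_assoc]
    exact nu_mul (mul_mem hz (ev_mem_val h0 hy Q)) hO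
  · rintro ⟨B, hB, A, e⟩
    have h1 := key B hB
    rw [ValuationSubring.mem_nonunits_iff_or, not_or, not_not] at h1
    rw [(eq_mul_inv_iff_mul_eq₀ h1.1).2 e]
    exact mul_mem (ev_mem_val h0 hy A) h1.2

theorem inter (h : Rl K0 y) {P : K0[X]} (hP : Prime P) {B' : K0[X]} {z : L}
    (h1 : z ∈ Lo y (nd P hP)) (h2 : z ∈ Lo y (Submonoid.powers (P * B'))) :
    z ∈ Lo y (Submonoid.powers B') := by
  obtain ⟨B, hB, A, e⟩ := h1
  obtain ⟨_, ⟨k, rfl⟩, A', e'⟩ := h2
  dsimp only at e'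
  have e2 : A' * B = P ^ k * (B' ^ k * A) := h.inj _ _ (by
    rw [map_mul, map_mul, map_mul, ← e, ← e', mul_pow, map_mul]; ring)
  obtain ⟨Q, rfl⟩ : P ^ k ∣ A' := hP.pow_dvd_of_dvd_mul_right k hB ⟨_, e2⟩
  refine ⟨_, ⟨k, rfl⟩, Q, mul_left_cancel₀ (h.ne (pow_ne_zero k hP.ne_zero)) ?_⟩
  dsimp only
  rw [← map_mul, ← e', mul_pow, map_mul]
  ring

/-- no finite pole: a polynomial -/
theorem poly_of (h : Rl K0 y) {z : L} (hz : ∀ (P : K0[X]) (hP : Prime P), z ∈ Lo y (nd P hP)) :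
    ∃ A : K0[X], z = aeval y A := by
  obtain ⟨A, B, hc, hB, e⟩ := h.frac z
  by_cases hu : IsUnit B
  · obtain ⟨U, rfl⟩ := hu
    refine ⟨A * (U⁻¹ : K0[X]ˣ), ?_⟩
    rw [map_mul, ← e, mul_assoc, ← map_mul, Units.mul_inv, map_one, mul_one]
  obtain ⟨P, hP, hd⟩ := WfDvdMonoid.exists_irreducible_factor hu hB
  obtain ⟨B', hB', A', e'⟩ := hz P hP.prime
  have e2 : A * B' = A' * B := h.inj _ _ (by rw [map_mul, map_mul, ← e, ← e']; ring)
  have : P ∣ A * B' := e2 ▸ hd.mul_left _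
  exact absurd (hc.isUnit_of_dvd' ((hP.prime.dvd_or_dvd this).resolve_right hB') hd) hP.not_isUnit

/-- a polynomial without pole at infinity is constant -/
theorem poly_inf {O : ValuationSubring L} (h0 : ∀ c ∈ K0, c ∈ O) (hy : y ∉ O) (A : K0[X])
    (hA : aeval y A ∈ O) : aeval y A ∈ K0 := by
  have hy0 : y ≠ 0 := fun e => hy (e ▸ zero_mem _)
  have hi : y⁻¹ ∈ O := (O.mem_or_inv_mem y).resolve_left hy
  induction A using Polynomial.recOnHorner with
  | M0 => simp
  | MC p a _ _ ih =>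
    rw [map_add, aeval_C] at hA ⊢
    exact add_mem (ih (by simpa using sub_mem hA (h0 a a.2))) a.2
  | MX p _ ih =>
    rw [map_mul, aeval_X] at hA ⊢
    have h1 : aeval y p ∈ O := by simpa [hy0] using mul_mem hA hi
    by_cases h2 : aeval y p = 0
    · rw [h2, zero_mul]; exact zero_mem _
    exact absurd (by simpa [h2] using mul_mem (h0 _ (inv_mem (ih h1))) hA) hy

/-- the polar part at a prime -/
theorem polar (h : Rl K0 y) {P : K0[X]} (hP : Prime P) (z : L) :
    ∃ w ∈ Lo y (Submonoid.powers P), z - w ∈ Lo y (nd P hP) := by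
  obtain ⟨A, B, -, hB, e⟩ := h.frac z
  obtain ⟨k, B', hB', rfl⟩ := WfDvdMonoid.max_power_factor' hB hP.not_isUnit
  obtain ⟨U, W, e1⟩ : IsCoprime (P ^ k) B' :=
    ((hP.irreducible.coprime_iff_not_dvd).2 hB').pow_left
  have e2 := congrArg (aeval y) e1
  rw [map_add, map_mul, map_mul, map_one] at e2
  rw [map_mul] at e
  have h1 := h.ne (pow_ne_zero k hP.ne_zero)
  refine ⟨z * (aeval y W * aeval y B'), ⟨_, ⟨k, rfl⟩, A * W, ?_⟩, B', hB', A * U, ?_⟩
  · rw [map_mul, ← e]; ring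
  · rw [map_mul, ← e]
    linear_combination (-z * aeval y B') * e2

theorem pow_le_nd {P Q : K0[X]} (hP : Prime P) (hQ : ¬P ∣ Q) {z : L}
    (hz : z ∈ Lo y (Submonoid.powers Q)) : z ∈ Lo y (nd P hP) := by
  obtain ⟨_, ⟨k, rfl⟩, A, e⟩ := hz
  exact ⟨_, fun hd => hQ (hP.dvd_of_dvd_pow hd), A, e⟩

theorem pow_le_pow {Q R : K0[X]} {n : ℕ} (hQ : Q ∣ R ^ n) {z : L}
    (hz : z ∈ Lo y (Submonoid.powers Q)) : z ∈ Lo y (Submonoid.powers R) := by
  obtain ⟨_, ⟨k, rfl⟩, A, e⟩ := hz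
  obtain ⟨T, hT⟩ := hQ
  refine ⟨_, ⟨n * k, rfl⟩, A * T ^ k, ?_⟩
  dsimp only at e ⊢
  rw [pow_mul, hT, mul_pow, map_mul, map_mul, ← e]
  ring

/-- killing all poles away from `y = 0` and infinity -/
theorem kill (h : Rl K0 y) (N : L →+ L) (hN : ∀ (S : Submonoid K0[X]), ∀ z ∈ Lo y S, N z ∈ Lo y S)
    (β : L) (hβ : ∀ (P : K0[X]) (hP : Prime P), ¬P ∣ X → ∃ g, β - N g ∈ Lo y (nd P hP)) :
    ∃ g ∈ Lo y (nd (X : K0[X]) prime_X), β - N g ∈ Lo y (Submonoid.powers (X : K0[X])) := by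
  obtain ⟨A, B, -, hB, e⟩ := h.frac β
  have h1 : β ∈ Lo y (Submonoid.powers (X * B)) :=
    pow_le_pow (n := 1) (by simp) ⟨B, Submonoid.mem_powers B, A, e⟩
  clear e A
  induction B using UniqueFactorizationMonoid.induction_on_prime generalizing β with
  | h₁ => exact absurd rfl hB
  | h₂ B hu =>
    refine ⟨0, zero_mem _, ?_⟩
    rw [map_zero, sub_zero]
    exact pow_le_pow (n := 1) (by simpa using (IsUnit.mul_right_dvd hu).2 dvd_rfl) h1
  | h₃ B P hB' hP ih =>
    by_cases hX : P ∣ X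
    · refine ih β hβ hB' (pow_le_pow (n := 2) ?_ h1)
      obtain ⟨T, hT⟩ := hX
      exact ⟨T * B, by linear_combination (X * B ^ 2) * hT⟩
    obtain ⟨g, hg⟩ := hβ P hP hX
    obtain ⟨w, hw, hw'⟩ := polar h hP g
    have hXP : ¬X ∣ P := fun hd =>
      hX ((hP.irreducible.associated_of_dvd irreducible_X.prime.irreducible
        (((irreducible_X.associated_of_dvd hP.irreducible hd)).symm.dvd)).dvd)
    obtain ⟨g', hg', hh⟩ := ih (β - N w) (fun Q hQ hQX => by
      obtain ⟨g, hg⟩ := hβ Q hQ hQX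
      exact ⟨g - w, by simpa using hg⟩) hB' (inter h hP (by
        have := add_mem hg (hN _ _ hw')
        rwa [map_sub, sub_add_sub_cancel] at this) (by
        rw [mul_left_comm]
        exact sub_mem h1 (hN _ _ (pow_le_pow (n := 1) ⟨X * B, by ring⟩ hw))))
    exact ⟨w + g', add_mem (pow_le_nd prime_X hXP hw) hg', by rwa [map_add, ← sub_sub]⟩

/-- a derivation that kills `K0`, as a derivation over `K0` -/
noncomputable def toK0 (Z : Der L) (hZ : ∀ c ∈ K0, Z c = 0) : Derivation K0 L L := Derivation.mk'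
  { toFun := Z
    map_add' := map_add Z
    map_smul' c a := by
      change Z (c * a) = c * Z a
      simp [hZ c c.2] } (fun a b => Z.leibniz a b)

theorem der_ev (Z : Der L) (hZ : ∀ c ∈ K0, Z c = 0) (A : K0[X]) :
    Z (aeval y A) = aeval y (derivative A) * Z y :=
  (toK0 Z hZ).map_aeval A y

/-- the constants of a nonzero derivation over `K0` -/
theorem ker_le (h : Rl K0 y) (Z : Der L) (hZ : ∀ c ∈ K0, Z c = 0) (hy : Z y ≠ 0) {z : L}
    (hz : Z z = 0) : z ∈ K0 := by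
  have : CharZero L := charZero_of_injective_algebraMap (algebraMap ℂ L).injective
  obtain ⟨A, B, hc, hB, e⟩ := h.frac z
  have e1 := congrArg Z e
  rw [Derivation.leibniz, hz, smul_zero, add_zero, der_ev Z hZ, der_ev Z hZ, smul_eq_mul,
    ← mul_assoc] at e1
  have e2 := mul_right_cancel₀ hy e1
  have e3 : A * derivative B = derivative A * B := h.inj _ _ (by
    rw [map_mul, map_mul, ← e2, ← e]; ring)
  have e4 : derivative B = 0 := eq_zero_of_dvd_of_degree_lt
    (hc.symm.dvd_of_dvd_mul_left ⟨derivative A, by rw [e3, mul_comm]⟩) (degree_derivative_lt hB)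
  have e5 : derivative A = 0 := by
    rw [e4, mul_zero] at e3
    exact (mul_eq_zero.1 e3.symm).resolve_right hB
  have h1 := h.ne hB
  rw [eq_C_of_derivative_eq_zero e4, aeval_C] at e h1
  rw [eq_C_of_derivative_eq_zero e5, aeval_C] at e
  rw [(eq_div_iff h1).2 e]
  exact div_mem (SetLike.coe_mem _) (SetLike.coe_mem _)

/-- eigenvalues of the Euler field are integers -/
theorem eig_int (h : Rl K0 y) (Z : Der L) (hZ : ∀ c ∈ K0, Z c = 0) (hy : Z y = y) {z : L}
    (hz0 : z ≠ 0) {a : ℂ} (hz : Z z + algebraMap ℂ L a * z = 0) : ∃ n : ℤ, a = n := by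
  obtain ⟨A, B, -, hB, e⟩ := h.frac z
  have hA : A ≠ 0 := by
    rintro rfl
    exact mul_ne_zero hz0 (h.ne hB) (by simpa using e)
  obtain ⟨i, A', hA', rfl⟩ := WfDvdMonoid.max_power_factor' hA (prime_X (R := K0)).not_isUnit
  obtain ⟨j, B', hB', rfl⟩ := WfDvdMonoid.max_power_factor' hB (prime_X (R := K0)).not_isUnit
  have e1 := congrArg Z e
  simp only [map_mul, map_pow, aeval_X, Derivation.leibniz, smul_eq_mul] at e e1
  have p1 : ∀ n : ℕ, Z (y ^ n) = n * y ^ n := fun n => by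
    have := eig_zpow Z h.y_ne (c := 1) (by simpa using hy) n
    simpa [Algebra.smul_def] using this
  rw [p1, p1, der_ev Z hZ, der_ev Z hZ, hy, eq_neg_of_add_eq_zero_left hz] at e1
  let c : K0 := algebraMap ℂ K0 (i - j + a)
  have e2 : C c * (A' * B') = X * (A' * derivative B' - derivative A' * B') := h.inj _ _ (by
    have hc : algebraMap K0 L c = i - j + algebraMap ℂ L a := by
      rw [← IsScalarTower.algebraMap_apply]; simp
    simp only [map_mul, map_sub, aeval_C, aeval_X, hc]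
    apply mul_left_cancel₀ (pow_ne_zero i h.y_ne)
    linear_combination (-(aeval y B')) * e1 +
      (y * aeval y (derivative B') + j * aeval y B' - algebraMap ℂ L a * aeval y B') * e)
  have e3 : c = 0 := by
    by_contra hc
    have : X ∣ A' * B' := ((isUnit_C.2 (Ne.isUnit hc)).dvd_mul_left).1 ⟨_, e2⟩
    exact (prime_X.dvd_or_dvd this).elim hA' hB'
  refine ⟨j - i, ?_⟩
  have := (map_eq_zero _).1 e3
  push_cast
  linear_combination this

end Pool.Agent.MP_ee8c61_ag.M3H47
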