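import Mathlib

/-! Jordan decomposition of a locally finite derivation of a field. -/

namespace Pool.Agent.MP_ee8c61_ag.M3H47

open Module TrivSqZeroExt

/-- generalised eigenvectors multiply along a bilinear map with a Leibniz rule -/
theorem gen_bil {M N P : Type*} [AddCommGroup M] [AddCommGroup N] [AddCommGroup P]
    [Module ℂ M] [Module ℂ N] [Module ℂ P] (B : M →ₗ[ℂ] N →ₗ[ℂ] P) (S : End ℂ M) (T : End ℂ N)
    (U : End ℂ P) (h : ∀ a b, U (B a b) = B (S a) b + B a (T b)) {l m : ℂ} {a : M} {b : N}
    (ha : a ∈ S.maxGenEigenspace l) (hb : b ∈ T.maxGenEigenspace m) :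
    B a b ∈ U.maxGenEigenspace (l + m) := by
  rw [End.mem_maxGenEigenspace] at ha hb ⊢
  obtain ⟨i, ha⟩ := ha
  obtain ⟨j, hb⟩ := hb
  refine ⟨i + j, ?_⟩
  have key : ∀ n i j, i + j = n → ∀ a b, ((S - l • (1 : End ℂ M)) ^ i) a = 0 →
      ((T - m • (1 : End ℂ N)) ^ j) b = 0 → ((U - (l + m) • (1 : End ℂ P)) ^ n) (B a b) = 0 := by
    intro n
    induction n with
    | zero =>
      intro i j hij a b ha _
      obtain rfl : i = 0 := by omega
      have : a = 0 := by simpa using ha
      simp [this]
    | succ n ih =>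
      intro i j hij a b ha hb
      rcases i with _ | i
      · have : a = 0 := by simpa using ha
        simp [this]
      rcases j with _ | j
      · have : b = 0 := by simpa using hb
        simp [this]
      have e : (U - (l + m) • (1 : End ℂ P)) (B a b) =
          B ((S - l • (1 : End ℂ M)) a) b + B a ((T - m • (1 : End ℂ N)) b) := by
        simp only [LinearMap.sub_apply, LinearMap.smul_apply, End.one_apply, h, map_sub, map_smul,
          add_smul, LinearMap.add_apply]
        abel
      rw [pow_succ, End.mul_apply, e, map_add, ih i (j + 1) (by omega) _ _ ha hb,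
        ih (i + 1) j (by omega) _ _ ha hb, add_zero]
  exact key _ i j rfl a b ha hb

/-- a linear map acting by prescribed scalars on the generalised eigenspaces -/
theorem exists_semi {M : Type*} [AddCommGroup M] [Module ℂ M] (T : End ℂ M) (p : ℂ → ℂ) :
    ∃ L : End ℂ M, ∀ l, ∀ a ∈ T.maxGenEigenspace l, L a = p l • a := by
  classical
  obtain ⟨g, hg⟩ := LinearMap.exists_leftInverse_of_injective
    (DFinsupp.lsum ℕ fun l => (T.maxGenEigenspace l).subtype)
    (LinearMap.ker_eq_bot.2 T.independent_maxGenEigenspace.dfinsupp_lsum_injective)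
  refine ⟨(DFinsupp.lsum ℕ fun l => p l • (T.maxGenEigenspace l).subtype) ∘ₗ g, fun l a ha => ?_⟩
  have := DFunLike.congr_fun hg (DFinsupp.single l ⟨a, ha⟩)
  simp only [LinearMap.comp_apply, DFinsupp.lsum_single, Submodule.subtype_apply,
    LinearMap.id_apply] at this
  simp [this]

/-- a finite dimensional invariant subspace lies in the sum of the generalised eigenspaces -/
theorem le_gen {M : Type*} [AddCommGroup M] [Module ℂ M] (T : End ℂ M) (V : Submodule ℂ M)
    [FiniteDimensional ℂ V] (hV : ∀ a ∈ V, T a ∈ V) :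
    V = ⨆ l, V ⊓ T.maxGenEigenspace l := by
  have h := End.iSup_maxGenEigenspace_eq_top (T.restrict hV)
  have h2 := congrArg (Submodule.map V.subtype) h
  rw [Submodule.map_iSup, Submodule.map_top, Submodule.range_subtype] at h2
  refine h2.symm.trans (iSup_congr fun l => ?_)
  exact (Submodule.inf_genEigenspace T V hV).symm

variable {K : Type*} [Field K] [Algebra ℂ K]

/-- derivations -/
abbrev Der (K : Type*) [Field K] [Algebra ℂ K] := Derivation ℂ K K

/-- a linear map with the Leibniz rule on a subalgebra with fraction field `K` -/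
theorem exists_ext (A : Subalgebra ℂ K) (hA : ∀ g : K, ∃ r ∈ A, ∃ s ∈ A, g = r / s)
    (L : End ℂ K) (hL : ∀ a ∈ A, ∀ b ∈ A, L (a * b) = a * L b + b * L a) :
    ∃ D : Der K, ∀ a ∈ A, D a = L a := by
  have d1 : L 1 = 0 := by
    have := hL 1 A.one_mem 1 A.one_mem
    simpa using this
  let ψ : A →+* TrivSqZeroExt K K :=
    { toFun s := inl (s : K) + inr (L s)
      map_one' := by ext <;> simp [d1]
      map_mul' x y := by ext <;> simp [hL _ x.2 _ y.2, mul_comm]
      map_zero' := by ext <;> simp
      map_add' x y := by ext <;> simp }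
  have e1 : ∀ s, (ψ s).fst = s := fun s => by simp [ψ]
  have e2 : ∀ s, (ψ s).snd = L s := fun s => by simp [ψ]
  have : IsFractionRing A K := IsFractionRing.of_field A K fun g => by
    obtain ⟨r, hr, s, hs, e⟩ := hA g
    exact ⟨⟨r, hr⟩, ⟨s, hs⟩, e⟩
  have hu : ∀ y : nonZeroDivisors A, IsUnit (ψ y) := fun y => by
    rw [isUnit_iff_isUnit_fst, e1]
    exact IsLocalization.map_units K y
  have l0 : ∀ s : A, IsLocalization.lift (S := K) hu (s : K) = ψ s := IsLocalization.lift_eq hu
  generalize IsLocalization.lift (S := K) hu = G at l0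
  have l1 : ∀ g, (G g).fst = g := fun g => DFunLike.congr_fun
    (IsLocalization.ringHom_ext (nonZeroDivisors A) (j := (fstHom K K K).toRingHom.comp G)
      (k := RingHom.id K) (RingHom.ext fun s => (congrArg fst (l0 s)).trans (e1 s))) g
  have l2 : ∀ a b, (G (a * b)).snd = a • (G b).snd + b • (G a).snd := fun a b => by
    simp [l1, mul_comm]
  refine ⟨Derivation.mk'
    { toFun g := (G g).snd
      map_add' a b := by simp
      map_smul' t g := by
        have h3 : (G (algebraMap ℂ K t)).snd = 0 := by
          have := (congrArg snd (l0 ⟨_, A.algebraMap_mem t⟩)).trans (e2 _)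
          rw [this]
          change L (algebraMap ℂ K t) = 0
          rw [Algebra.algebraMap_eq_smul_one, map_smul, d1, smul_zero]
        rw [Algebra.smul_def, l2, h3, smul_zero, add_zero,
          RingHom.id_apply, Algebra.smul_def t, smul_eq_mul] } l2, fun s hs => ?_⟩
  exact (congrArg snd (l0 ⟨s, hs⟩)).trans (e2 _)

/-- the generalised eigenspaces of a derivation -/
abbrev Gn (v : Der K) (l : ℂ) : Submodule ℂ K := End.maxGenEigenspace (v : End ℂ K) l

theorem Gn.mul {v : Der K} {l m : ℂ} {a b : K} (ha : a ∈ Gn v l) (hb : b ∈ Gn v m) :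
    a * b ∈ Gn v (l + m) :=
  gen_bil (LinearMap.mul ℂ K) _ _ _ (fun a b => by simp [mul_comm, add_comm]) ha hb

theorem Gn.one (v : Der K) : (1 : K) ∈ Gn v 0 :=
  (End.mem_maxGenEigenspace _ _ _).2 ⟨1, by simp⟩

theorem Gn.map {v : Der K} {l : ℂ} {a : K} (ha : a ∈ Gn v l) : v a ∈ Gn v l :=
  End.mapsTo_maxGenEigenspace_of_comm (Commute.refl (v : End ℂ K)) l ha

/-- the locally finite part -/
noncomputable def Fin' (v : Der K) : Subalgebra ℂ K :=
  (⨆ l, Gn v l).toSubalgebra (Submodule.mem_iSup_of_mem 0 (Gn.one v)) fun a b ha hb => by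
    induction ha using Submodule.iSup_induction' with
    | mem l a ha =>
      induction hb using Submodule.iSup_induction' with
      | mem m b hb => exact Submodule.mem_iSup_of_mem _ (Gn.mul ha hb)
      | zero => simp
      | add b c _ _ h1 h2 => rw [mul_add]; exact add_mem h1 h2
    | zero => simp
    | add a c _ _ h1 h2 => rw [add_mul]; exact add_mem h1 h2

theorem mem_Fin' {v : Der K} {a : K} : a ∈ Fin' v ↔ a ∈ ⨆ l, Gn v l := Iff.rfl

/-- `K` is the fraction field of the locally finite part of `v` -/
def LocFin (v : Der K) : Prop := ∀ g : K, ∃ r ∈ Fin' v, ∃ s ∈ Fin' v, g = r / s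

theorem locFin_of (v : Der K) (V : Submodule ℂ K) [FiniteDimensional ℂ V]
    (hV : ∀ a ∈ V, v a ∈ V) (hg : IntermediateField.adjoin ℂ (V : Set K) = ⊤) : LocFin v := by
  intro g
  have h : g ∈ IntermediateField.adjoin ℂ (V : Set K) := hg ▸ IntermediateField.mem_top
  obtain ⟨r, hr, s, hs, e⟩ := IntermediateField.mem_adjoin_iff_div.1 h
  have hle : Algebra.adjoin ℂ (V : Set K) ≤ Fin' v := by
    refine Algebra.adjoin_le fun a ha => ?_
    have h1 : V ≤ ⨆ l, Gn v l :=
      (le_gen (v : End ℂ K) V hV).le.trans (iSup_mono fun l => inf_le_right)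
    exact h1 ha
  exact ⟨r, hle hr, s, hle hs, e⟩

/-- a derivation that kills all generalised eigenvectors is zero -/
theorem LocFin.zero {v : Der K} (h : LocFin v) (t : Der K) (ht : ∀ l, ∀ a ∈ Gn v l, t a = 0)
    (g : K) : t g = 0 := by
  have h1 : ∀ a ∈ Fin' v, t a = 0 := fun a ha => by
    rw [mem_Fin'] at ha
    induction ha using Submodule.iSup_induction' with
    | mem l a ha => exact ht l a ha
    | zero => simp
    | add a c _ _ h1 h2 => rw [map_add, h1, h2, add_zero]
  obtain ⟨r, hr, s, hs, rfl⟩ := h g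
  simp [div_eq_mul_inv, Derivation.leibniz_inv, h1 r hr, h1 s hs]

/-- the semisimple derivation attached to an additive map on the eigenvalues -/
theorem LocFin.exists_semi {v : Der K} (h : LocFin v) (p : ℂ →+ ℂ) :
    ∃ v' : Der K, ∀ l, ∀ a ∈ Gn v l, v' a = p l • a := by
  obtain ⟨L, hL⟩ := M3H47.exists_semi (v : End ℂ K) p
  obtain ⟨D, hD⟩ := exists_ext (Fin' v) h L fun a ha b hb => by
    rw [mem_Fin'] at ha hb
    induction ha using Submodule.iSup_induction' with
    | mem l a ha =>
      induction hb using Submodule.iSup_induction' with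
      | mem m b hb =>
        rw [hL _ _ (Gn.mul ha hb), hL _ _ ha, hL _ _ hb, map_add, add_smul, mul_smul_comm,
          mul_smul_comm, mul_comm b a, add_comm]
      | zero => simp
      | add b c _ _ h1 h2 => rw [mul_add, map_add, h1, h2, map_add]; ring
    | zero => simp
    | add a c _ _ h1 h2 => rw [add_mul, map_add, h1, h2, map_add]; ring
  exact ⟨D, fun l a ha => (hD a (Submodule.mem_iSup_of_mem l ha)).trans (hL l a ha)⟩

/-- the semisimple derivation commutes with `v` -/
theorem LocFin.comm {v v' : Der K} (h : LocFin v) {p : ℂ → ℂ}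
    (hv : ∀ l, ∀ a ∈ Gn v l, v' a = p l • a) (g : K) : v' (v g) = v (v' g) := by
  have := h.zero ⁅v', v⁆ (fun l a ha => by
    rw [Derivation.commutator_apply, hv l _ (Gn.map ha), hv l a ha, Derivation.map_smul,
      sub_self]) g
  rwa [Derivation.commutator_apply, sub_eq_zero] at this

end Pool.Agent.MP_ee8c61_ag.M3H47
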